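import Mathlib
import Pool.Agent.H540R2.Circ
import Pool.Agent.H540R2.Lift.Defs
import Pool.Agent.H540R2.Lift.NegDefs
import Pool.Agent.H540R2.Lift.RFinal

/-!
# Size, width and the number of NOT gates of circuits for directed connectivity

Non-uniform L is the class of functions with circuits of polynomial size and logarithmic width.
We show that circuits of width `w` with `t` NOT gates for directed connectivity on `N` vertices
(which is complete for NL) have size at least `2 ^ (c * (log N - t) ^ 2 / log w)`. In particular
`log N - o(log N)` NOT gates are needed at polynomial size and width `N ^ o(1)`.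
-/

set_option autoImplicit false

namespace Pool.Agent.Results.MP_994c82_lc.ConnectivityWidth

open Pool.Agent.H540R2

/-- There is a constant `c` such that for every `N ≥ 2` there is a directed graph `H` with `N`
vertices and at most `N` arcs such that the following holds. Let `C` be a circuit with at most
`2 ^ q` gates, `q ≥ log₂ N`, layered of width `w`, that decides for every subgraph of `H`, given by
its adjacency matrix, whether vertex `1` is reachable from vertex `0`. Then
`(log₂ N - number of NOT gates) ^ 2 ≤ c * q * (log₂ w + 1)`. -/
theorem result : ∃ c : ℕ, ∀ (N : ℕ) (hN : 2 ≤ N), ∃ H : Finset (Fin N × Fin N), H.card ≤ N ∧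
    ∀ (C : Circuit (N * N)) (w q : ℕ),
      (∀ x : Fin (N * N) → Bool, (∀ u v, x (finProdFinEquiv (u, v)) = true → (u, v) ∈ H) →
        (C.eval x = true ↔ Relation.ReflTransGen (fun u v => x (finProdFinEquiv (u, v)) = true)
          ⟨0, by omega⟩ ⟨1, by omega⟩)) →
      C.Layered w → Nat.log 2 N ≤ q → C.size ≤ 2 ^ q →
      (Nat.log 2 N - C.nots) ^ 2 ≤ c * (q * (Nat.log 2 w + 1)) :=
  Pool.Agent.H540R2.Lift.st_tradeoff

end Pool.Agent.Results.MP_994c82_lc.ConnectivityWidth
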