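import Pool.Agent.H554R2.Gen.Main

/-!
# Nondeterministic incremental branching programs for GEN

GEN is the problem: given the table of a binary operation on `{0, …, N}`, is `N` in the least set
which contains `0` and is closed under the operation?  It is complete for `P` under logspace
reductions, so `NL ≠ P` iff nondeterministic logspace machines cannot solve it.  The natural
(closure) algorithm only ever looks at products `T(a, b)` of elements `a`, `b` which it knows to
be generated.  Gál, Koucký and McKenzie (*Incremental branching programs*, 2008) defined the
branching programs which behave in this way (*incremental* programs) and proved exponential lower
bounds for nondeterministic programs all of whose graph-theoretical paths are incremental; they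
left open the case in which only the computations have to be incremental (*semantic* incremental
programs).  Wehr (2011) proved an exponential lower bound for deterministic semantic incremental
programs.

We prove the exponential lower bound `2 ^ Ω(N ^ (1 / 5))` for nondeterministic ones, even if only
accepting computations are restricted, and even if they only have to query pairs of generated
elements.

The proof: GEN is restricted to tables which evaluate a cylindrical circuit of circumference `W`
and depth `W²` whose nodes have arbitrary labels.  The boundary of a segment of a computation
consists of the nodes which are used but not computed in it.  If every segment has a boundary of
fewer than `W / 3` nodes then the computation has length `2 ^ W` (a doubling argument); if, on the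
other hand, for every labelling some segment has a large boundary then replacing a segment of one
computation by a segment of another shows that the two end states of the segment and the labels
outside the boundary determine those in the boundary.
-/

set_option autoImplicit false

namespace Pool.Agent.Results.MP_994c82_lc.IncrementalGEN

open Pool.Agent.H554R2.Thrifty Pool.Agent.H554R2.Gen

/-- If `N > 300 W ^ 5`, then a nondeterministic branching program which accepts exactly those
tables on `{0, …, N}` in which `0` generates `N`, and whose accepting computations query only
pairs of generated elements, has at least `2 ^ ⌊W / 2⌋` states. -/
theorem result (W N : ℕ) (hW : 2 ≤ W) (hN : 300 * W ^ 5 < N)
    (P : BP (Fin (N + 1) × Fin (N + 1)) (N + 1)) (hacc : AcceptsGEN P)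
    (hgen : QueriesGenerated P) : 2 ^ (W / 2) ≤ P.size :=
  gen_lower W N hW hN P hacc hgen

end Pool.Agent.Results.MP_994c82_lc.IncrementalGEN
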