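import Mathlib
import Pool.Agent.H534R2.GenFlat

namespace H534R2.Gen

open Relation

/-- Directed switching networks in rounds: round `i < d` evaluates `w i` monotone directed networks
`N i k A`, which may depend arbitrarily on the table `A` of the answers of the earlier rounds (one
NOT gate is a round with `w i = 1`); the network `N d 0 A` gives the result.  If such computations
with at most `2 ^ ℓ` nodes decide solvability of all path systems on `V`, then
`∏ (w i + 1) ≥ |V| / (36 (6 ℓ² + 6 ℓ + 13)⁶)`.  The same holds for path systems inside suitable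
hosts that have linear-size monotone circuits, with `|V|` replaced by nearly the number of
variables. -/
theorem _root_.Pool.Agent.Results.MP_994c82_lc.NLNegations.result :
    (∀ (ℓ d : ℕ) (w : ℕ → ℕ) (V : Type) (_ : Fintype V) (t : V)
      (N : ℕ → ℕ → (ℕ → ℕ → Prop) → DNet (PS V)),
      (∀ i k A A', (∀ j < i, ∀ k' < w j, (A j k' ↔ A' j k')) → N i k A = N i k A') →
      (∀ A, (∑ i ∈ Finset.range d, ∑ k ∈ Finset.range (w i), (N i k A).size)
        + (N d 0 A).size ≤ 2 ^ ℓ) →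
      (∀ v : PS V → Prop, ∃ A : ℕ → ℕ → Prop,
        (∀ i < d, ∀ k < w i, (A i k ↔ (N i k A).Accepts v)) ∧
        ((N d 0 A).Accepts v ↔ Solv v t)) →
      Fintype.card V ≤
        36 * (6 * ℓ ^ 2 + 6 * ℓ + 13) ^ 6 * ∏ i ∈ Finset.range d, (w i + 1)) ∧
    (∀ (ℓ h M : ℕ), 6 * ℓ ^ 2 + 6 * ℓ + 12 ≤ h → ∀ (V : Type) (_ : Fintype V) (t : V),
      36 * M * (h + 1) ^ 6 + 1 ≤ Fintype.card V →
      ∃ H : PS V → Prop, {x : PS V | H x}.ncard ≤ 46656 * M * (h + 1) ^ 14 ∧
        (∃ L : List ((PS V → Prop) → Prop), MC L ∧ L.length ≤ 186624 * M * (h + 1) ^ 14 + 1 ∧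
          ∃ f ∈ L, ∀ v : PS V → Prop, (∀ x, v x → H x) → (f v ↔ Solv v t)) ∧
        ∀ (d : ℕ) (w : ℕ → ℕ) (N : ℕ → ℕ → (ℕ → ℕ → Prop) → DNet (PS V)),
          (∀ i k A A', (∀ j < i, ∀ k' < w j, (A j k' ↔ A' j k')) → N i k A = N i k A') →
          (∀ A, (∑ i ∈ Finset.range d, ∑ k ∈ Finset.range (w i), (N i k A).size)
            + (N d 0 A).size ≤ 2 ^ ℓ) →
          (∀ v : PS V → Prop, (∀ x, v x → H x) → ∃ A : ℕ → ℕ → Prop,
            (∀ i < d, ∀ k < w i, (A i k ↔ (N i k A).Accepts v)) ∧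
            ((N d 0 A).Accepts v ↔ Solv v t)) →
          M + 1 ≤ ∏ i ∈ Finset.range d, (w i + 1)) :=
  ⟨fun ℓ d w V _ t N h1 h2 h3 => rounds_bound ℓ d w V t N h1 h2 h3,
    fun ℓ h M hℓ V _ t hV => rounds_host ℓ h M hℓ V t hV⟩

end H534R2.Gen
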