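import Pool.Agent.H554R2.Thrifty.Upper
import Pool.Agent.H554R2.Thrifty.Lower

/-!
# Deterministic versus unambiguous thrifty branching programs for tree evaluation

Cook, McKenzie, Wehr, Braverman and Santhanam (*Pebbles and branching programs for tree
evaluation*, 2012) proposed the tree evaluation problem as a candidate for separating `L` and `NL`
from `P`.  Deterministic thrifty branching programs need `k ^ h` states, and the best
nondeterministic thrifty programs had `k ^ (h / 2 + 1)` states, which is what fractional
black-white pebbling gives and which is optimal for `h ≤ 4`.

We show that for every `ε > 0` there are, for all `h` and `k`, unambiguous nondeterministic thrifty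
programs with at most `k ^ (4 + ε) * exp (C * (h + √(h * log k * log (h + 1))))` states.  With
`N = k ^ 2 * 2 ^ h` this is always `N ^ O(√(log log N))`, and it is polynomial in `N` unless `h`
lies between `log k / log log k` and `log k * log log k`; for `h = log k * log log k` deterministic
thrifty programs need `N ^ Ω(log N / log log N)` states.

Construction: before and after every query of an inner node both subtrees are evaluated, and their
values are added to memory blocks which hold points of spherical shells in boxes of growing side
length; a wrong guess of the two values would give a three-term arithmetic progression in a shell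
whose difference is the difference of two codewords, which is impossible.
-/

set_option autoImplicit false

namespace Pool.Agent.Results.MP_994c82_lc.ThriftyGap

open Pool.Agent.H554R2.Thrifty

/-- Trees with `h = n + 1` levels over the alphabet `[k]`.  Deterministic thrifty branching
programs for the Boolean tree evaluation problem have at least `k ^ h` states; unambiguous
nondeterministic thrifty ones need at most
`k ^ (4 + ε) * exp (C * (h + √(h * log k * log (h + 1))))` states. -/
theorem result :
    (∀ n k : ℕ, 1 ≤ n → 2 ≤ k → ∀ P : BP (Var k n) k,
      P.Deterministic → P.Solves (BT k n) → P.Thrifty → k ^ (n + 1) ≤ P.size) ∧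
    (∀ ε : ℝ, 0 < ε → ∃ C : ℝ, 0 < C ∧ ∀ n k : ℕ, 2 ≤ k →
      ∃ P : BP (Var k n) k, P.Unambiguous ∧ P.Solves (BT k n) ∧ P.Thrifty ∧
        (P.size : ℝ) ≤ (k : ℝ) ^ (4 + ε) * Real.exp (C * (((n : ℝ) + 1) +
          √(((n : ℝ) + 1) * Real.log k * Real.log ((n : ℝ) + 2))))) :=
  ⟨fun _ _ hn hk P hdet hsol hth => lower P hk hn hdet hsol hth,
    fun ε hε => upper_all ε hε⟩

end Pool.Agent.Results.MP_994c82_lc.ThriftyGap
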